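import Pool.Agent.Helper84.WC.Basic
import Pool.Agent.Helper93.WC.KVanish

/-!
# WC-2 : vanishing of K-theory for a subalgebra of `B(H)` with an Eilenberg swindle
-/

open MeasureTheory Topology
open scoped ENNReal InnerProductSpace

namespace Pool.Agent.Helper84.WC

section WC2
variable {H : Type*} [NormedAddCommGroup H] [InnerProductSpace ℂ H] [CompleteSpace H]

/-- cosine coefficient -/
private noncomputable def wc2c (θ : ℝ) : ℂ := ((Real.cos (Real.pi / 2 * θ) : ℝ) : ℂ)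

/-- sine coefficient -/
private noncomputable def wc2s (θ : ℝ) : ℂ := ((Real.sin (Real.pi / 2 * θ) : ℝ) : ℂ)

private lemma wc2_sq (θ : ℝ) : wc2c θ * wc2c θ + wc2s θ * wc2s θ = 1 := by
  unfold wc2c wc2s
  have h := Real.cos_sq_add_sin_sq (Real.pi / 2 * θ)
  have h2 : ((Real.cos (Real.pi / 2 * θ) ^ 2 + Real.sin (Real.pi / 2 * θ) ^ 2 : ℝ) : ℂ) = 1 := by
    rw [h]; norm_num
  push_cast at h2 ⊢
  linear_combination h2

private lemma wc2c_star (θ : ℝ) : star (wc2c θ) = wc2c θ := by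
  unfold wc2c; exact Complex.conj_ofReal _

private lemma wc2s_star (θ : ℝ) : star (wc2s θ) = wc2s θ := by
  unfold wc2s; exact Complex.conj_ofReal _

/-- the isometry `H² → H³` -/
private noncomputable def wc2U (v w : H →L[ℂ] H) (θ : ℝ) :
    Matrix (Fin 3) (Fin 2) (H →L[ℂ] H) :=
  !![wc2c θ • 1, 0; 0, wc2c θ • 1; wc2s θ • v, wc2s θ • w]

private lemma wc2U_star (v w : H →L[ℂ] H) (θ : ℝ) :
    (wc2U v w θ).conjTranspose =
      !![wc2c θ • 1, 0, wc2s θ • star v; 0, wc2c θ • 1, wc2s θ • star w] := by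
  ext i j : 1
  fin_cases i <;> fin_cases j <;>
    simp [wc2U, Matrix.conjTranspose_apply, wc2c_star, wc2s_star]

private lemma wc2U_iso {v w : H →L[ℂ] H} (hv : star v * v = 1) (hw : star w * w = 1)
    (hvw : star v * w = 0) (θ : ℝ) :
    (wc2U v w θ).conjTranspose * wc2U v w θ = 1 := by
  have hwv : star w * v = 0 := by
    have := congrArg star hvw
    simpa using this
  rw [wc2U_star]
  have key : wc2c θ • wc2c θ • (1 : H →L[ℂ] H) + wc2s θ • wc2s θ • (1 : H →L[ℂ] H) = 1 := by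
    rw [smul_smul, smul_smul, ← add_smul, wc2_sq, one_smul]
  ext i j : 1
  fin_cases i <;> fin_cases j <;>
    simp [wc2U, Matrix.mul_apply, Fin.sum_univ_three, hv, hw, hvw, hwv, key]

/-- the compressed homomorphism with values in `M₃(B(H))` -/
private noncomputable def wc2Q (Φ : (H →L[ℂ] H) →⋆ₙₐ[ℂ] (H →L[ℂ] H)) (v w : H →L[ℂ] H)
    (θ : ℝ) (T : H →L[ℂ] H) : Matrix (Fin 3) (Fin 3) (H →L[ℂ] H) :=
  wc2U v w θ * Matrix.diagonal ![T, Φ T] * (wc2U v w θ).conjTranspose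

private lemma wc2Q_eq (Φ : (H →L[ℂ] H) →⋆ₙₐ[ℂ] (H →L[ℂ] H)) (v w : H →L[ℂ] H)
    (hΦ : ∀ T, Φ T = v * T * star v + w * Φ T * star w) (θ : ℝ) (T : H →L[ℂ] H) :
    wc2Q Φ v w θ T =
      !![(wc2c θ * wc2c θ) • T, 0, (wc2c θ * wc2s θ) • (T * star v);
         0, (wc2c θ * wc2c θ) • Φ T, (wc2c θ * wc2s θ) • (Φ T * star w);
         (wc2c θ * wc2s θ) • (v * T), (wc2c θ * wc2s θ) • (w * Φ T),
           (wc2s θ * wc2s θ) • Φ T] := by
  have h22 : wc2s θ • wc2s θ • (v * T * star v) + wc2s θ • wc2s θ • (w * Φ T * star w)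
      = (wc2s θ * wc2s θ) • Φ T := by
    rw [smul_smul, smul_smul, ← smul_add, ← hΦ T]
  rw [wc2Q, wc2U_star]
  ext i j : 1
  rw [Matrix.mul_apply, Fin.sum_univ_two, Matrix.mul_diagonal, Matrix.mul_diagonal]
  fin_cases i <;> fin_cases j <;>
    simp [wc2U, smul_smul, mul_comm (wc2s θ) (wc2c θ)]
  simpa [smul_smul] using h22

private lemma wc2Q_mul (Φ : (H →L[ℂ] H) →⋆ₙₐ[ℂ] (H →L[ℂ] H)) {v w : H →L[ℂ] H}
    (hv : star v * v = 1) (hw : star w * w = 1) (hvw : star v * w = 0) (θ : ℝ)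
    (T T' : H →L[ℂ] H) :
    wc2Q Φ v w θ (T * T') = wc2Q Φ v w θ T * wc2Q Φ v w θ T' := by
  unfold wc2Q
  have hd : Matrix.diagonal ![T * T', Φ (T * T')] =
      Matrix.diagonal ![T, Φ T] * Matrix.diagonal ![T', Φ T'] := by
    rw [Matrix.diagonal_mul_diagonal]
    congr 1
    ext i : 1
    fin_cases i <;> simp
  calc wc2U v w θ * Matrix.diagonal ![T * T', Φ (T * T')] * (wc2U v w θ).conjTranspose
      = wc2U v w θ * (Matrix.diagonal ![T, Φ T] *
        ((wc2U v w θ).conjTranspose * wc2U v w θ) * Matrix.diagonal ![T', Φ T']) *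
        (wc2U v w θ).conjTranspose := by
        rw [wc2U_iso hv hw hvw, Matrix.mul_one, hd]
    _ = _ := by simp only [Matrix.mul_assoc]

private lemma wc2Q_star (Φ : (H →L[ℂ] H) →⋆ₙₐ[ℂ] (H →L[ℂ] H)) (v w : H →L[ℂ] H) (θ : ℝ)
    (T : H →L[ℂ] H) : wc2Q Φ v w θ (star T) = star (wc2Q Φ v w θ T) := by
  unfold wc2Q
  rw [Matrix.star_eq_conjTranspose, Matrix.conjTranspose_mul, Matrix.conjTranspose_mul,
    Matrix.conjTranspose_conjTranspose, Matrix.diagonal_conjTranspose, Matrix.mul_assoc]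
  congr 3
  ext i : 1
  fin_cases i <;> simp [map_star]

private lemma wc2Q_add (Φ : (H →L[ℂ] H) →⋆ₙₐ[ℂ] (H →L[ℂ] H)) (v w : H →L[ℂ] H) (θ : ℝ)
    (T T' : H →L[ℂ] H) :
    wc2Q Φ v w θ (T + T') = wc2Q Φ v w θ T + wc2Q Φ v w θ T' := by
  unfold wc2Q
  have hd : Matrix.diagonal ![T + T', Φ (T + T')] =
      Matrix.diagonal ![T, Φ T] + Matrix.diagonal ![T', Φ T'] := by
    rw [Matrix.diagonal_add]
    congr 1
    ext i : 1
    fin_cases i <;> simp
  rw [hd, Matrix.mul_add, Matrix.add_mul]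

private lemma wc2Q_smul (Φ : (H →L[ℂ] H) →⋆ₙₐ[ℂ] (H →L[ℂ] H)) (v w : H →L[ℂ] H) (θ : ℝ)
    (c : ℂ) (T : H →L[ℂ] H) :
    wc2Q Φ v w θ (c • T) = c • wc2Q Φ v w θ T := by
  unfold wc2Q
  have hd : Matrix.diagonal ![c • T, Φ (c • T)] = c • Matrix.diagonal ![T, Φ T] := by
    rw [← Matrix.diagonal_smul]
    congr 1
    ext i : 1
    fin_cases i <;> simp
  rw [hd, Matrix.mul_smul, Matrix.smul_mul]

private lemma wc2Q_at_zero (Φ : (H →L[ℂ] H) →⋆ₙₐ[ℂ] (H →L[ℂ] H)) (v w : H →L[ℂ] H)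
    (hΦ : ∀ T, Φ T = v * T * star v + w * Φ T * star w) (T : H →L[ℂ] H) :
    wc2Q Φ v w 0 T = Matrix.diagonal ![T, Φ T, 0] := by
  rw [wc2Q_eq Φ v w hΦ]
  have hc : wc2c 0 = 1 := by simp [wc2c]
  have hs : wc2s 0 = 0 := by simp [wc2s]
  ext i j : 1
  fin_cases i <;> fin_cases j <;> simp [hc, hs]

private lemma wc2Q_at_one (Φ : (H →L[ℂ] H) →⋆ₙₐ[ℂ] (H →L[ℂ] H)) (v w : H →L[ℂ] H)
    (hΦ : ∀ T, Φ T = v * T * star v + w * Φ T * star w) (T : H →L[ℂ] H) :
    wc2Q Φ v w 1 T = Matrix.diagonal ![0, 0, Φ T] := by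
  rw [wc2Q_eq Φ v w hΦ]
  have hc : wc2c 1 = 0 := by simp [wc2c]
  have hs : wc2s 1 = 1 := by simp [wc2s]
  ext i j : 1
  fin_cases i <;> fin_cases j <;> simp [hc, hs]

private lemma wc2Q_continuous (Φ : (H →L[ℂ] H) →⋆ₙₐ[ℂ] (H →L[ℂ] H)) (v w : H →L[ℂ] H)
    (hΦ : ∀ T, Φ T = v * T * star v + w * Φ T * star w) (T : H →L[ℂ] H) (i j : Fin 3) :
    Continuous fun θ => wc2Q Φ v w θ T i j := by
  have h1 : Continuous wc2c := by unfold wc2c; fun_prop
  have h2 : Continuous wc2s := by unfold wc2s; fun_prop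
  simp only [wc2Q_eq Φ v w hΦ]
  fin_cases i <;> fin_cases j <;> simp <;> fun_prop

theorem K_vanish_isom (A : NonUnitalStarSubalgebra ℂ (H →L[ℂ] H))
    [IsClosed (A : Set (H →L[ℂ] H))] (Φ : (H →L[ℂ] H) →⋆ₙₐ[ℂ] (H →L[ℂ] H)) (v w : H →L[ℂ] H)
    (hv : star v * v = 1) (hw : star w * w = 1) (hvw : star v * w = 0)
    (hΦ : ∀ T, Φ T = v * T * star v + w * Φ T * star w)
    (hΦA : ∀ T ∈ A, Φ T ∈ A) (hvA : ∀ T ∈ A, v * T ∈ A) (hwA : ∀ T ∈ A, w * T ∈ A) :
    KZero A = ⊥ ∧ KOne A = ⊥ := by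
  have hvA' : ∀ T ∈ A, T * star v ∈ A := by
    intro T hT
    have h := star_mem (hvA (star T) (star_mem hT))
    simpa using h
  have hwA' : ∀ T ∈ A, T * star w ∈ A := by
    intro T hT
    have h := star_mem (hwA (star T) (star_mem hT))
    simpa using h
  have hmem : ∀ (θ : ℝ) (T : H →L[ℂ] H), T ∈ A → ∀ i j, wc2Q Φ v w θ T i j ∈ A := by
    intro θ T hT i j
    rw [wc2Q_eq Φ v w hΦ]
    fin_cases i <;> fin_cases j <;> simp <;>
      first
        | exact zero_mem A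
        | exact SMulMemClass.smul_mem _ hT
        | exact SMulMemClass.smul_mem _ (hΦA T hT)
        | exact SMulMemClass.smul_mem _ (hvA T hT)
        | exact SMulMemClass.smul_mem _ (hwA _ (hΦA T hT))
        | exact SMulMemClass.smul_mem _ (hvA' T hT)
        | exact SMulMemClass.smul_mem _ (hwA' _ (hΦA T hT))
  let ΦA : A →⋆ₙₐ[ℂ] A :=
    { toFun := fun a => ⟨Φ a, hΦA a a.2⟩
      map_smul' := fun c a => Subtype.ext (by simp)
      map_zero' := Subtype.ext (by simp)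
      map_add' := fun a b => Subtype.ext (by simp)
      map_mul' := fun a b => Subtype.ext (by simp)
      map_star' := fun a => Subtype.ext (by simp [map_star]) }
  let qm : ℝ → A → Matrix (Fin 3) (Fin 3) A := fun θ a =>
    Matrix.of fun i j => ⟨wc2Q Φ v w θ a i j, hmem θ a a.2 i j⟩
  have hqm : ∀ θ a i j, ((qm θ a i j : A) : H →L[ℂ] H) = wc2Q Φ v w θ a i j :=
    fun _ _ _ _ => rfl
  have hsmul : ∀ θ (c : ℂ) a, qm θ (c • a) = c • qm θ a := by
    intro θ c a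
    ext i j : 1
    apply Subtype.ext
    have h2 := congrFun (congrFun (wc2Q_smul Φ v w θ c (a : H →L[ℂ] H)) i) j
    rw [Matrix.smul_apply] at h2
    rw [Matrix.smul_apply, hqm]
    change _ = c • ((qm θ a i j : A) : H →L[ℂ] H)
    rw [hqm]
    exact h2
  have hadd : ∀ θ a b, qm θ (a + b) = qm θ a + qm θ b := by
    intro θ a b
    ext i j : 1
    apply Subtype.ext
    have h2 := congrFun (congrFun (wc2Q_add Φ v w θ (a : H →L[ℂ] H) b) i) j
    rw [Matrix.add_apply] at h2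
    rw [Matrix.add_apply, hqm]
    change _ = ((qm θ a i j : A) : H →L[ℂ] H) + ((qm θ b i j : A) : H →L[ℂ] H)
    rw [hqm, hqm]
    exact h2
  have hmul : ∀ θ a b, qm θ (a * b) = qm θ a * qm θ b := by
    intro θ a b
    ext i j : 1
    apply Subtype.ext
    have h2 := congrFun (congrFun (wc2Q_mul Φ hv hw hvw θ (a : H →L[ℂ] H) b) i) j
    rw [Matrix.mul_apply, Fin.sum_univ_three] at h2
    rw [Matrix.mul_apply, hqm, Fin.sum_univ_three]
    change _ = ((qm θ a i 0 : A) : H →L[ℂ] H) * ((qm θ b 0 j : A) : H →L[ℂ] H) +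
      ((qm θ a i 1 : A) : H →L[ℂ] H) * ((qm θ b 1 j : A) : H →L[ℂ] H) +
      ((qm θ a i 2 : A) : H →L[ℂ] H) * ((qm θ b 2 j : A) : H →L[ℂ] H)
    rw [hqm, hqm, hqm, hqm, hqm, hqm]
    exact h2
  have hstar : ∀ θ a, qm θ (star a) = star (qm θ a) := by
    intro θ a
    ext i j : 1
    apply Subtype.ext
    have h2 := congrFun (congrFun (wc2Q_star Φ v w θ (a : H →L[ℂ] H)) i) j
    rw [Matrix.star_apply] at h2
    rw [Matrix.star_apply, hqm]
    change _ = star ((qm θ a j i : A) : H →L[ℂ] H)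
    rw [hqm]
    exact h2
  have hzero : ∀ θ, qm θ 0 = 0 := by
    intro θ
    ext i j : 1
    apply Subtype.ext
    have h2 := congrFun (congrFun (wc2Q_smul Φ v w θ 0 (0 : H →L[ℂ] H)) i) j
    rw [Matrix.smul_apply, zero_smul, zero_smul] at h2
    rw [hqm]
    exact h2
  let q : ℝ → A →⋆ₙₐ[ℂ] Matrix (Fin 3) (Fin 3) A := fun θ =>
    { toFun := qm θ
      map_smul' := hsmul θ
      map_zero' := hzero θ
      map_add' := hadd θ
      map_mul' := hmul θ
      map_star' := hstar θ }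
  refine K_vanish A ΦA q ?_ ?_ ?_
  · intro a
    refine continuous_pi fun i => continuous_pi fun j => ?_
    rw [continuous_induced_rng]
    exact wc2Q_continuous Φ v w hΦ a i j
  · intro a
    ext i j : 1
    apply Subtype.ext
    change wc2Q Φ v w 0 (a : H →L[ℂ] H) i j = _
    rw [wc2Q_at_zero Φ v w hΦ, Matrix.diagonal_apply, Matrix.diagonal_apply]
    by_cases hij : i = j
    · rw [if_pos hij, if_pos hij]
      fin_cases i <;> rfl
    · rw [if_neg hij, if_neg hij]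
      rfl
  · intro a
    ext i j : 1
    apply Subtype.ext
    change wc2Q Φ v w 1 (a : H →L[ℂ] H) i j = _
    rw [wc2Q_at_one Φ v w hΦ, Matrix.diagonal_apply, Matrix.diagonal_apply]
    by_cases hij : i = j
    · rw [if_pos hij, if_pos hij]
      fin_cases i <;> rfl
    · rw [if_neg hij, if_neg hij]
      rfl

end WC2

end Pool.Agent.Helper84.WC
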